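import Pool.Agent.X192.SP.Transfer

set_option autoImplicit false

namespace Pool.Agent.Results.MP_8dad81_al.FiveInvolutions

/-- The matrix of the standard symplectic form, `J = [[0, I], [-I, 0]]`, of size `2n`. -/
def J (n : ℕ) : Matrix (Fin n ⊕ Fin n) (Fin n ⊕ Fin n) ℂ :=
  Matrix.fromBlocks 0 1 (-1) 0

/-- Membership in the compact symplectic group `Sp(n) = {A ∈ U(2n) : Aᵗ J A = J}`. -/
def InSp (n : ℕ) (A : Matrix (Fin n ⊕ Fin n) (Fin n ⊕ Fin n) ℂ) : Prop :=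
  A ∈ Matrix.unitaryGroup (Fin n ⊕ Fin n) ℂ ∧ A.transpose * J n * A = J n

/-- For every `n ≥ 2` every element of `Sp(n)` is a product of five involutions of `Sp(n)`. -/
theorem result (n : ℕ) (hn : 2 ≤ n) (A : Matrix (Fin n ⊕ Fin n) (Fin n ⊕ Fin n) ℂ)
    (hA : InSp n A) :
    ∃ B : Fin 5 → Matrix (Fin n ⊕ Fin n) (Fin n ⊕ Fin n) ℂ,
      (∀ i, InSp n (B i) ∧ B i * B i = 1) ∧ A = B 0 * B 1 * B 2 * B 3 * B 4 := by
  obtain ⟨h1, h2⟩ := hA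
  rw [Matrix.mem_unitaryGroup_iff] at h1
  obtain ⟨B, hB, hAB⟩ := Pool.Agent.X192.SP.main_complex (ι := Fin n) (by simpa using hn)
    (A := A) ⟨mul_eq_one_comm.mp h1, h1⟩ h2
  exact ⟨B, fun i => ⟨⟨Matrix.mem_unitaryGroup_iff.mpr (hB i).1.2, (hB i).2.1⟩, (hB i).2.2⟩, hAB⟩

end Pool.Agent.Results.MP_8dad81_al.FiveInvolutions
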